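import Pool.Agent.H329R3.SF.G

set_option autoImplicit false

/-!
# Schiffer's overdetermined problem on the linear images of a planar domain

`Schiffer Ω` (in `Pool/Agent/H329R3/SF/G.lean`, with `FewImages`, `FewDil`; `dil` is in `SF/A.lean`): the
overdetermined problem `-Δu = lam u`, `∂u/∂n = 0`, `u = c` on the boundary has a nontrivial weak
solution for some `lam > 0`.  For every bounded open nonempty plane set `Ω`, only countably many
linear images of `Ω`, up to similarity, carry a nontrivial solution.
-/

namespace Pool.Agent.Results.MP_83fd13_an.LinearImages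

open Pool.Agent.H329R3.SF

theorem result (Ω : Set (EuclideanSpace ℝ (Fin 2))) (hb : Bornology.IsBounded Ω)
    (ho : IsOpen Ω) (hne : Ω.Nonempty) :
    FewImages Ω ∧ FewDil Ω :=
  all Ω hb ho hne

end Pool.Agent.Results.MP_83fd13_an.LinearImages
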